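import Pool.Agent.Helper69.ES.DefsR
import Pool.Agent.Helper63.ES.DiscMax

/-!
# ES with a rate (v4), block R3r: from bad points to all stretches
-/

open MeasureTheory Set Filter Topology
open Pool.Agent.Helper57.Zeta Pool.Agent.Helper57.PC Pool.Agent.Helper57.LH Pool.Agent.Helper78.SG
open Pool.Agent.Helper4.SH Pool.Agent.Helper69.PP Pool.Agent.Helper22.SI
open Pool.Agent.Helper69.SM (wt)
open scoped Interval

namespace Pool.Agent.Helper19.ESR

open Pool.Agent.Helper69 Pool.Agent.Helper69.ES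

/-- `CloseC` is antitone in the height -/
private theorem close_mono19 {c y y' : ℝ} (hy : 1 < y) (hyy : y ≤ y') {ρ : ZS} (h : SM.CloseC c y' ρ) : SM.CloseC c y ρ := by
  rcases h with h | ⟨ρ', h1, h2⟩
  · exact Or.inl h
  · refine Or.inr ⟨ρ', h1, le_trans ?_ h2⟩
    have h3 : Real.log y ≤ Real.log y' := Real.log_le_log (by linarith) hyy
    have h4 : 0 ≤ Real.log y := (Real.log_pos hy).le
    gcongr

/-- bounds of the logarithm -/
private theorem log19 {X y : ℝ} (hX : 1 < X) (h1 : 8 / 11 * X ≤ y) (h2 : y ≤ 2 * X) :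
    Real.log X - 1 ≤ Real.log y ∧ Real.log y ≤ Real.log X + 1 := by
  have hX0 : 0 < X := by linarith
  have hy0 : 0 < y := by linarith
  constructor
  · have h3 : Real.log X ≤ Real.log (11 / 8 * y) := Real.log_le_log hX0 (by linarith)
    rw [Real.log_mul (by norm_num) hy0.ne'] at h3
    have h4 : Real.log (11 / 8 : ℝ) ≤ 11 / 8 - 1 := Real.log_le_sub_one_of_pos (by norm_num)
    linarith
  · have h3 : Real.log y ≤ Real.log (2 * X) := Real.log_le_log hy0 h2
    rw [Real.log_mul (by norm_num) hX0.ne'] at h3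
    have h4 : Real.log (2 : ℝ) ≤ 2 - 1 := Real.log_le_sub_one_of_pos (by norm_num)
    linarith

/-- a close zero gives a zero with a close successor slightly below it -/
private theorem up19 {X L c : ℝ} (hL : L = Real.log X) (hX : 1 < X) (hL0 : 20000 ≤ L) (hc0 : 0 < c) (hc : c ≤ 6799 / 10000)
    {A B : ℝ} {ρ : ZS} (hA : A + 7 / L ≤ (ρ : ℂ).im) (hB : (ρ : ℂ).im ≤ B - 1 / L) (h : SM.CloseC c (8 / 11 * X) ρ) :
    ∃ ρ' : ZS, A < (ρ' : ℂ).im ∧ (ρ' : ℂ).im < B ∧ ∀ x : ℝ, X ≤ x → x ≤ 2 * X → CloseUpC (17 / 25) x ρ' := by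
  have hLp : 0 < L := by linarith
  have h7 : 0 < 7 / L := by positivity
  have h1L : 0 < 1 / L := by positivity
  have hpi : 0 < 2 * Real.pi := by positivity
  obtain ⟨hy1, hy2⟩ := log19 hX (le_refl (8 / 11 * X)) (by linarith)
  rw [← hL] at hy1 hy2
  have hyp : 0 < Real.log (8 / 11 * X) := by linarith
  -- the change of height
  have key : ∀ D : ℝ, 0 ≤ D → D * Real.log (8 / 11 * X) / (2 * Real.pi) ≤ c → ∀ x : ℝ, X ≤ x → x ≤ 2 * X →
      D * Real.log x / (2 * Real.pi) ≤ 17 / 25 := by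
    intro D hD0 hD x hx1 hx2
    obtain ⟨_, hx4⟩ := log19 hX (show 8 / 11 * X ≤ x by linarith) hx2
    rw [← hL] at hx4
    rw [div_le_iff₀ hpi] at hD ⊢
    have h3 : D * (L - 1) ≤ 6799 / 10000 * (2 * Real.pi) := by
      calc D * (L - 1) ≤ D * Real.log (8 / 11 * X) := mul_le_mul_of_nonneg_left hy1 hD0
        _ ≤ c * (2 * Real.pi) := hD
        _ ≤ _ := mul_le_mul_of_nonneg_right hc hpi.le
    have h4 : 6799 / 10000 * (L + 1) ≤ 17 / 25 * (L - 1) := by linarith
    have hL1 : 0 < L - 1 := by linarith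
    refine (mul_le_mul_of_nonneg_left hx4 hD0).trans ?_
    have h5 : D * (L + 1) * (L - 1) ≤ 17 / 25 * (2 * Real.pi) * (L - 1) := by
      calc D * (L + 1) * (L - 1) = (D * (L - 1)) * (L + 1) := by ring
        _ ≤ (6799 / 10000 * (2 * Real.pi)) * (L + 1) := mul_le_mul_of_nonneg_right h3 (by linarith)
        _ = (6799 / 10000 * (L + 1)) * (2 * Real.pi) := by ring
        _ ≤ (17 / 25 * (L - 1)) * (2 * Real.pi) := mul_le_mul_of_nonneg_right h4 hpi.le
        _ = _ := by ring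
    exact le_of_mul_le_mul_right h5 hL1
  rcases h with h | ⟨ρ', h1, h2⟩
  · exact ⟨ρ, by linarith, by linarith, fun x _ _ => Or.inl h⟩
  · rcases le_or_gt (ρ : ℂ).im (ρ' : ℂ).im with h3 | h3
    · refine ⟨ρ, by linarith, by linarith, fun x hx1 hx2 => Or.inr ⟨ρ', h1, sub_nonneg.2 h3, ?_⟩⟩
      refine key _ (sub_nonneg.2 h3) ?_ x hx1 hx2
      rwa [abs_sub_comm, abs_of_nonneg (sub_nonneg.2 h3)] at h2
    · rw [abs_of_pos (sub_pos.2 h3)] at h2
      refine ⟨ρ', ?_, by linarith, fun x hx1 hx2 => Or.inr ⟨ρ, h1.symm, by linarith, ?_⟩⟩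
      · have h4 : ((ρ : ℂ).im - (ρ' : ℂ).im) * L < 7 := by
          have h5 := key _ (sub_pos.2 h3).le h2 X le_rfl (by linarith)
          rw [← hL, div_le_iff₀ hpi] at h5
          have := Real.pi_lt_d2
          nlinarith
        have h5 : (ρ : ℂ).im - (ρ' : ℂ).im < 7 / L := by rwa [lt_div_iff₀ hLp]
        linarith
      · exact key _ (by linarith) h2 x hx1 hx2

/-- the combinatorial core: `Exc` has measure at most `8` times the measure of the bad points -/
private theorem core19 {X K L : ℝ} (hL : L = Real.log X) (hX : 1 < X) (hL0 : 20000 ≤ L) (hK : 256 ≤ K) {V : ℝ} (hV : 0 ≤ V)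
    (hT : ∀ i ∈ Finset.range 7, volume {t : ℝ | t ∈ Icc (11 * (8 / 11 * X * (13 / 11) ^ i) / 8) (13 * (8 / 11 * X * (13 / 11) ^ i) / 8) ∧
        ∀ ρ : ZS, t ≤ (ρ : ℂ).im → (ρ : ℂ).im ≤ t + K / 32 / Real.log (8 / 11 * X * (13 / 11) ^ i) →
          ¬ SM.CloseC (6799 / 10000) (8 / 11 * X * (13 / 11) ^ i) ρ} ≤ ENNReal.ofReal V) :
    volume {x : ℝ | x ∈ Icc X (2 * X) ∧ ∃ H : ℝ, K / Real.log X ≤ H ∧ H ≤ X ∧
      ∑ ρ ∈ UZ (17 / 25) x H, mx (ρ : ℂ) < 1 / K * (H * Real.log X)} ≤ ENNReal.ofReal (56 * V) := by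
  classical
  have hLp : 0 < L := by linarith
  have hX0 : 0 < X := by linarith
  rw [← hL]
  obtain ⟨l, hl⟩ : ∃ l : ℝ, l = K / (8 * L) := ⟨_, rfl⟩
  have hl0 : 0 < l := by rw [hl]; positivity
  have hlL : l * L = K / 8 := by rw [hl]; field_simp
  have h7 : 0 < 7 / L := by positivity
  have h1L : 0 < 1 / L := by positivity
  obtain ⟨N, hN⟩ : ∃ N : ℕ, N = ⌈2 * X / l⌉₊ + 1 := ⟨_, rfl⟩
  -- bad cells
  obtain ⟨Bad, hBad⟩ : ∃ Bad : Finset ℕ, Bad = (Finset.range N).filter (fun j : ℕ => X + ((j : ℝ) + 1) * l ≤ 3 * X ∧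
      ∀ ρ : ZS, X + (j : ℝ) * l + 7 / L ≤ (ρ : ℂ).im → (ρ : ℂ).im ≤ X + ((j : ℝ) + 1) * l - 1 / L →
        ¬ SM.CloseC (6799 / 10000) (8 / 11 * X) ρ) := ⟨_, rfl⟩
  obtain ⟨E, hE⟩ : ∃ E : Finset ℕ, E = (Finset.range N).filter (fun j => ∃ n : ℕ, 1 ≤ n ∧
      n ≤ 2 * (Bad.filter (fun i => j ≤ i ∧ i < j + n)).card) := ⟨_, rfl⟩
  have hEB : E.card ≤ 2 * Bad.card := by
    refine Pool.Agent.Helper63.ES.disc_max Bad E fun j hj => ?_
    rw [hE, Finset.mem_filter] at hj
    exact hj.2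
  -- measure of the bad cells
  have hmeas : (Bad.card : ℝ) * (l / 4) ≤ 7 * V := by
    have h1 : volume (⋃ j ∈ Bad, Icc (X + (j : ℝ) * l + 7 / L) (X + j * l + l / 2)) ≤ ENNReal.ofReal (7 * V) := by
      have h2 : (⋃ j ∈ Bad, Icc (X + (j : ℝ) * l + 7 / L) (X + j * l + l / 2)) ⊆
          ⋃ i ∈ Finset.range 7, {t : ℝ | t ∈ Icc (11 * (8 / 11 * X * (13 / 11) ^ i) / 8) (13 * (8 / 11 * X * (13 / 11) ^ i) / 8) ∧
            ∀ ρ : ZS, t ≤ (ρ : ℂ).im → (ρ : ℂ).im ≤ t + K / 32 / Real.log (8 / 11 * X * (13 / 11) ^ i) →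
              ¬ SM.CloseC (6799 / 10000) (8 / 11 * X * (13 / 11) ^ i) ρ} := by
        intro t ht
        rw [mem_iUnion₂] at ht
        obtain ⟨j, hj, ht1, ht2⟩ := ht
        rw [hBad, Finset.mem_filter] at hj
        obtain ⟨-, hj1, hj2⟩ := hj
        have hj0 : 0 ≤ (j : ℝ) * l := by positivity
        have htX : X ≤ t := by linarith
        have ht3 : t ≤ 3 * X := by linarith
        -- the window
        obtain ⟨i, hi, hi1, hi2⟩ : ∃ i : ℕ, i < 7 ∧ 11 * (8 / 11 * X * (13 / 11) ^ i) / 8 ≤ t ∧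
            t ≤ 13 * (8 / 11 * X * (13 / 11) ^ i) / 8 := by
          by_contra hcon
          push Not at hcon
          have a0 := hcon 0 (by norm_num) (by norm_num; linarith)
          have a1 := hcon 1 (by norm_num) (by norm_num at a0 ⊢; linarith)
          have a2 := hcon 2 (by norm_num) (by norm_num at a1 ⊢; linarith)
          have a3 := hcon 3 (by norm_num) (by norm_num at a2 ⊢; linarith)
          have a4 := hcon 4 (by norm_num) (by norm_num at a3 ⊢; linarith)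
          have a5 := hcon 5 (by norm_num) (by norm_num at a4 ⊢; linarith)
          have a6 := hcon 6 (by norm_num) (by norm_num at a5 ⊢; linarith)
          norm_num at a6
          linarith
        rw [mem_iUnion₂]
        refine ⟨i, Finset.mem_range.2 hi, ⟨hi1, hi2⟩, fun ρ h3 h4 h5 => ?_⟩
        have hpow : (1 : ℝ) ≤ (13 / 11) ^ i := one_le_pow₀ (by norm_num)
        have hpow2 : ((13 : ℝ) / 11) ^ i ≤ (13 / 11) ^ 6 := pow_le_pow_right₀ (by norm_num) (by omega)
        have hy1 : 8 / 11 * X ≤ 8 / 11 * X * (13 / 11) ^ i := le_mul_of_one_le_right (by positivity) hpow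
        have hy2 : 8 / 11 * X * (13 / 11) ^ i ≤ 2 * X := by
          calc 8 / 11 * X * (13 / 11) ^ i ≤ 8 / 11 * X * (13 / 11) ^ 6 := mul_le_mul_of_nonneg_left hpow2 (by positivity)
            _ ≤ 2 * X := by norm_num; linarith
        obtain ⟨hl1, _⟩ := log19 hX hy1 hy2
        rw [← hL] at hl1
        have hX8 : 1 < 8 / 11 * X := by
          have : (20000 : ℝ) ≤ X := hL0.trans (hL ▸ (Real.log_le_sub_one_of_pos hX0).trans (by linarith))
          linarith
        refine hj2 ρ (by linarith) ?_ (close_mono19 hX8 hy1 h5)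
        have h6 : K / 32 / Real.log (8 / 11 * X * (13 / 11) ^ i) ≤ K / 32 / (L - 1) := by
          have : 0 < L - 1 := by linarith
          gcongr
        have h7' : K / 32 / (L - 1) ≤ l / 2 - 1 / L := by
          rw [div_le_iff₀ (by linarith : (0 : ℝ) < L - 1)]
          have e1 : (l / 2 - 1 / L) * (L - 1) = (K / 16 - 1) * ((L - 1) / L) := by
            rw [hl]
            field_simp
            ring
          rw [e1]
          have e2 : (3 : ℝ) / 4 ≤ (L - 1) / L := by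
            rw [le_div_iff₀ hLp]
            linarith
          nlinarith
        linarith
      refine (measure_mono h2).trans ((measure_biUnion_finset_le _ _).trans ((Finset.sum_le_sum hT).trans (le_of_eq ?_)))
      rw [Finset.sum_const, Finset.card_range, nsmul_eq_mul, ENNReal.ofReal_mul (by norm_num)]
      norm_num
    have h3 : volume (⋃ j ∈ Bad, Icc (X + (j : ℝ) * l + 7 / L) (X + j * l + l / 2)) =
        Bad.card * ENNReal.ofReal (l / 2 - 7 / L) := by
      rw [measure_biUnion_finset]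
      · have : ∀ j ∈ Bad, volume (Icc (X + (j : ℝ) * l + 7 / L) (X + j * l + l / 2)) = ENNReal.ofReal (l / 2 - 7 / L) := by
          intro j _
          rw [Real.volume_Icc]
          congr 1
          ring
        rw [Finset.sum_congr rfl this, Finset.sum_const, nsmul_eq_mul]
      · intro i _ j _ hij
        rw [Function.onFun, Set.disjoint_left]
        rintro t ⟨h3, h4⟩ ⟨h5, h6⟩
        rcases lt_or_gt_of_ne hij with h | h
        · have h8 : (i : ℝ) + 1 ≤ j := by exact_mod_cast h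
          have h9 : ((i : ℝ) + 1) * l ≤ j * l := mul_le_mul_of_nonneg_right h8 hl0.le
          linarith
        · have h8 : (j : ℝ) + 1 ≤ i := by exact_mod_cast h
          have h9 : ((j : ℝ) + 1) * l ≤ i * l := mul_le_mul_of_nonneg_right h8 hl0.le
          linarith
      · exact fun j _ => measurableSet_Icc
    have h4 : l / 4 ≤ l / 2 - 7 / L := by
      have : 7 / L ≤ l / 4 := by
        rw [div_le_iff₀ hLp]
        have : l / 4 * L = K / 32 := by rw [div_mul_eq_mul_div, hlL]; ring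
        rw [this]
        linarith
      linarith
    rw [h3] at h1
    have h5 : ENNReal.ofReal ((Bad.card : ℝ) * (l / 4)) ≤ ENNReal.ofReal (7 * V) := by
      refine le_trans ?_ h1
      rw [ENNReal.ofReal_mul (Nat.cast_nonneg _), ENNReal.ofReal_natCast]
      gcongr
    exact (ENNReal.ofReal_le_ofReal_iff (by positivity)).1 h5
  -- exceptional points
  have hsub : {x : ℝ | x ∈ Icc X (2 * X) ∧ ∃ H : ℝ, K / L ≤ H ∧ H ≤ X ∧
      ∑ ρ ∈ UZ (17 / 25) x H, mx (ρ : ℂ) < 1 / K * (H * L)} ⊆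
      ⋃ j ∈ E, Icc (X + ((j : ℝ) - 1) * l) (X + j * l) := by
    rintro x ⟨⟨hx1, hx2⟩, H, hH1, hH2, hH3⟩
    obtain ⟨u, hu⟩ : ∃ u : ℝ, u = (x - X) / l := ⟨_, rfl⟩
    obtain ⟨v, hv⟩ : ∃ v : ℝ, v = (x + H - X) / l := ⟨_, rfl⟩
    have hu0 : 0 ≤ u := by rw [hu]; exact div_nonneg (by linarith) hl0.le
    have hul : u * l = x - X := by rw [hu]; exact div_mul_cancel₀ _ hl0.ne'
    have hvl : v * l = x + H - X := by rw [hv]; exact div_mul_cancel₀ _ hl0.ne'
    have hHL : 8 * l ≤ H := by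
      refine le_trans (le_of_eq ?_) hH1
      rw [hl]
      field_simp
    have hvu : u + 8 ≤ v := by
      have : (u + 8) * l ≤ v * l := by rw [add_mul, hul, hvl]; linarith
      exact le_of_mul_le_mul_right this hl0
    have hv0 : 0 ≤ v := by linarith
    have hj0 := Nat.le_ceil u
    have hj0' := Nat.ceil_lt_add_one hu0
    have hj1 := Nat.floor_le hv0
    have hj1' := Nat.lt_floor_add_one v
    set j0 := ⌈u⌉₊ with hj0d
    set j1 := ⌊v⌋₊ with hj1d
    have hjj : (j0 : ℝ) + 6 ≤ j1 := by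
      have : (j0 : ℝ) + 6 < j1 + 1 := by linarith
      have h2 : j0 + 6 < j1 + 1 := by exact_mod_cast this
      have h3 : j0 + 6 ≤ j1 := by omega
      exact_mod_cast h3
    have hjj' : j0 + 6 ≤ j1 := by exact_mod_cast hjj
    obtain ⟨n, hn⟩ : ∃ n : ℕ, j1 = j0 + n := ⟨j1 - j0, by omega⟩
    have hn6 : 6 ≤ n := by omega
    have hnr : v - u - 2 ≤ n := by
      have : (j1 : ℝ) = j0 + n := by exact_mod_cast hn
      linarith
    have hcell : ∀ i ∈ Finset.Ico j0 (j0 + n), x ≤ X + i * l ∧ X + ((i : ℝ) + 1) * l ≤ x + H ∧ i < N := by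
      intro i hi
      rw [Finset.mem_Ico] at hi
      have h1 : (j0 : ℝ) ≤ i := by exact_mod_cast hi.1
      have h2 : (i : ℝ) + 1 ≤ j1 := by
        have : i + 1 ≤ j1 := by omega
        exact_mod_cast this
      refine ⟨?_, ?_, ?_⟩
      · have : u * l ≤ i * l := mul_le_mul_of_nonneg_right (hj0.trans h1) hl0.le
        rw [hul] at this
        linarith
      · have : ((i : ℝ) + 1) * l ≤ v * l := mul_le_mul_of_nonneg_right (h2.trans hj1) hl0.le
        rw [hvl] at this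
        linarith
      · have h3 : ((i : ℝ) + 1) * l ≤ 2 * X := by
          have : ((i : ℝ) + 1) * l ≤ v * l := mul_le_mul_of_nonneg_right (h2.trans hj1) hl0.le
          rw [hvl] at this
          linarith
        have h4 : (i : ℝ) + 1 ≤ 2 * X / l := by rwa [le_div_iff₀ hl0]
        have h5 : (i : ℝ) + 1 ≤ (⌈2 * X / l⌉₊ : ℝ) := h4.trans (Nat.le_ceil _)
        have h6 : i + 1 ≤ ⌈2 * X / l⌉₊ := by exact_mod_cast h5
        omega
    -- good cells give zeros
    have hgood : ∀ i ∈ (Finset.Ico j0 (j0 + n)).filter (fun i => i ∉ Bad), ∃ ρ' : ZS, X + i * l < (ρ' : ℂ).im ∧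
        (ρ' : ℂ).im < X + ((i : ℝ) + 1) * l ∧ ∀ x : ℝ, X ≤ x → x ≤ 2 * X → CloseUpC (17 / 25) x ρ' := by
      intro i hi
      rw [Finset.mem_filter] at hi
      obtain ⟨h1, h2, h3⟩ := hcell i hi.1
      have h4 : ¬ ∀ ρ : ZS, X + i * l + 7 / L ≤ (ρ : ℂ).im → (ρ : ℂ).im ≤ X + (i + 1) * l - 1 / L →
          ¬ SM.CloseC (6799 / 10000) (8 / 11 * X) ρ := by
        intro h5
        refine hi.2 ?_
        rw [hBad, Finset.mem_filter]
        exact ⟨Finset.mem_range.2 h3, by linarith, h5⟩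
      push Not at h4
      obtain ⟨ρ, h5, h6, h7⟩ := h4
      exact up19 hL hX hL0 (by norm_num) le_rfl h5 h6 h7
    choose f hf1 hf2 hf3 using hgood
    have hinj : Set.InjOn (fun i : {i // i ∈ (Finset.Ico j0 (j0 + n)).filter (fun i => i ∉ Bad)} => f i.1 i.2)
        ((Finset.univ : Finset {i // i ∈ (Finset.Ico j0 (j0 + n)).filter (fun i => i ∉ Bad)}) : Set _) := by
      rintro ⟨i, hi⟩ _ ⟨j, hj⟩ _ hij
      by_contra hne
      have a1 := hf1 i hi
      have a2 := hf2 i hi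
      have b1 := hf1 j hj
      have b2 := hf2 j hj
      change f i hi = f j hj at hij
      rw [hij] at a1 a2
      have hne' : i ≠ j := fun h => hne (Subtype.ext h)
      rcases lt_or_gt_of_ne hne' with h | h
      · have h8 : (i : ℝ) + 1 ≤ j := by exact_mod_cast h
        have h9 : ((i : ℝ) + 1) * l ≤ j * l := mul_le_mul_of_nonneg_right h8 hl0.le
        linarith
      · have h8 : (j : ℝ) + 1 ≤ i := by exact_mod_cast h
        have h9 : ((j : ℝ) + 1) * l ≤ i * l := mul_le_mul_of_nonneg_right h8 hl0.le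
        linarith
    have hmap : ∀ i ∈ (Finset.univ : Finset {i // i ∈ (Finset.Ico j0 (j0 + n)).filter (fun i => i ∉ Bad)}),
        f i.1 i.2 ∈ UZ (17 / 25) x H := by
      rintro ⟨i, hi⟩ _
      obtain ⟨h1, h2, _⟩ := hcell i (Finset.mem_filter.1 hi).1
      rw [mem_UZ (by linarith)]
      exact ⟨by linarith [hf1 i hi], by linarith [hf2 i hi], hf3 i hi x hx1 hx2⟩
    have hcard := Finset.card_le_card_of_injOn _ hmap hinj
    rw [Finset.card_univ, Fintype.card_coe] at hcard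
    have hsum : ((UZ (17 / 25) x H).card : ℝ) ≤ ∑ ρ ∈ UZ (17 / 25) x H, mx (ρ : ℂ) := by
      calc ((UZ (17 / 25) x H).card : ℝ) = ∑ _ρ ∈ UZ (17 / 25) x H, (1 : ℝ) := by
            rw [Finset.sum_const, nsmul_eq_mul, mul_one]
        _ ≤ _ := Finset.sum_le_sum fun ρ _ => mx_one_le ρ
    have hgd : (((Finset.Ico j0 (j0 + n)).filter (fun i => i ∉ Bad)).card : ℝ) < (n + 2) / 8 := by
      have h1 : (((Finset.Ico j0 (j0 + n)).filter (fun i => i ∉ Bad)).card : ℝ) ≤ (UZ (17 / 25) x H).card := by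
        exact_mod_cast hcard
      have h2 : 1 / K * (H * L) = (v - u) / 8 := by
        have h3 : v - u = H / l := by rw [hu, hv, ← sub_div]; congr 1; ring
        rw [h3, hl]
        have hK0 : K ≠ 0 := by linarith
        field_simp
      rw [h2] at hH3
      linarith
    have hpart : ((Finset.Ico j0 (j0 + n)).filter (fun i => i ∉ Bad)).card +
        (Bad.filter (fun i => j0 ≤ i ∧ i < j0 + n)).card = n := by
      have h1 := Finset.card_filter_add_card_filter_not (s := Finset.Ico j0 (j0 + n)) (fun i => i ∉ Bad)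
      rw [Nat.card_Ico] at h1
      have h2 : (Finset.Ico j0 (j0 + n)).filter (fun i => ¬ i ∉ Bad) = Bad.filter (fun i => j0 ≤ i ∧ i < j0 + n) := by
        ext i
        rw [Finset.mem_filter, Finset.mem_filter, Finset.mem_Ico, not_not]
        exact and_comm
      rw [h2] at h1
      omega
    rw [mem_iUnion₂]
    refine ⟨j0, ?_, ?_, ?_⟩
    · rw [hE, Finset.mem_filter]
      refine ⟨Finset.mem_range.2 (hcell j0 (Finset.mem_Ico.2 ⟨le_rfl, by omega⟩)).2.2, n, by omega, ?_⟩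
      have h1 : (((Finset.Ico j0 (j0 + n)).filter (fun i => i ∉ Bad)).card : ℝ) +
          ((Bad.filter (fun i => j0 ≤ i ∧ i < j0 + n)).card : ℝ) = n := by exact_mod_cast hpart
      have h2 : (6 : ℝ) ≤ n := by exact_mod_cast hn6
      have h3 : (n : ℝ) ≤ 2 * ((Bad.filter (fun i => j0 ≤ i ∧ i < j0 + n)).card : ℝ) := by linarith
      exact_mod_cast h3
    · have : ((j0 : ℝ) - 1) * l ≤ u * l := mul_le_mul_of_nonneg_right (by linarith) hl0.le
      rw [hul] at this
      linarith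
    · have : u * l ≤ j0 * l := mul_le_mul_of_nonneg_right hj0 hl0.le
      rw [hul] at this
      linarith
  refine (measure_mono hsub).trans ((measure_biUnion_finset_le _ _).trans ?_)
  have h1 : ∀ j ∈ E, volume (Icc (X + ((j : ℝ) - 1) * l) (X + j * l)) = ENNReal.ofReal l := by
    intro j _
    rw [Real.volume_Icc]
    congr 1
    ring
  rw [Finset.sum_congr rfl h1, Finset.sum_const, nsmul_eq_mul, ← ENNReal.ofReal_natCast, ← ENNReal.ofReal_mul (Nat.cast_nonneg _)]
  refine ENNReal.ofReal_le_ofReal ?_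
  have h2 : (E.card : ℝ) ≤ 2 * Bad.card := by exact_mod_cast hEB
  have h3 : (E.card : ℝ) * l ≤ 2 * Bad.card * l := mul_le_mul_of_nonneg_right h2 hl0.le
  linarith

/-- **R3r** over `bad_rate` -/
theorem every_rate_of
    (bad_rate : ∀ {c : ℝ}, 0 < c → c < 1 → 103 ≤ c * (103 + 97 * (1 / 2)) → c * (1 / 2) ≤ 103 / 200 →
      ∃ C κ : ℝ, 0 < C ∧ 0 < κ ∧ ∀ K : ℝ, 1 ≤ K → ∀ᶠ x : ℝ in atTop,
        volume {t : ℝ | t ∈ Icc (11 * x / 8) (13 * x / 8) ∧
          ∀ ρ : ZS, t ≤ (ρ : ℂ).im → (ρ : ℂ).im ≤ t + K / Real.log x → ¬ SM.CloseC c x ρ} ≤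
          ENNReal.ofReal (C * K ^ (-κ) * x)) :
    ∃ C κ : ℝ, 0 < C ∧ 0 < κ ∧ ∀ K : ℝ, 1 ≤ K → ∀ᶠ X : ℝ in atTop,
    volume {x : ℝ | x ∈ Icc X (2 * X) ∧ ∃ H : ℝ, K / Real.log X ≤ H ∧ H ≤ X ∧
      ∑ ρ ∈ UZ (17 / 25) x H, mx (ρ : ℂ) < κ / K * (H * Real.log X)} ≤ ENNReal.ofReal (C * K ^ (-κ) * X) := by
  obtain ⟨C, κ, hC, hκ, h⟩ := bad_rate (c := 6799 / 10000) (by norm_num) (by norm_num) (by norm_num) (by norm_num)
  obtain ⟨κ', hκ'⟩ : ∃ κ' : ℝ, κ' = min κ 1 := ⟨_, rfl⟩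
  have hk0 : 0 < κ' := by rw [hκ']; exact lt_min hκ one_pos
  have hk1 : κ' ≤ 1 := by rw [hκ']; exact min_le_right _ _
  have hk2 : κ' ≤ κ := by rw [hκ']; exact min_le_left _ _
  refine ⟨112 * C * 32 ^ κ' + 256 ^ κ', κ', by positivity, hk0, fun K hK => ?_⟩
  have hK0 : 0 < K := by linarith
  rcases lt_or_ge K 256 with hK2 | hK2
  · filter_upwards [eventually_gt_atTop 1] with X hX
    have hX0 : 0 < X := by linarith
    refine (measure_mono (t := Icc X (2 * X)) fun x hx => hx.1).trans ?_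
    rw [Real.volume_Icc]
    refine ENNReal.ofReal_le_ofReal ?_
    have h1 : 1 ≤ (112 * C * 32 ^ κ' + 256 ^ κ') * K ^ (-κ') := by
      have h2 : (256 : ℝ) ^ (-κ') ≤ K ^ (-κ') := Real.rpow_le_rpow_of_nonpos hK0 hK2.le (by linarith)
      have h3 : (256 : ℝ) ^ κ' * 256 ^ (-κ') = 1 := by
        rw [← Real.rpow_add (by norm_num)]
        simp
      calc (1 : ℝ) = 256 ^ κ' * 256 ^ (-κ') := h3.symm
        _ ≤ 256 ^ κ' * K ^ (-κ') := mul_le_mul_of_nonneg_left h2 (by positivity)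
        _ ≤ _ := mul_le_mul_of_nonneg_right (by have : 0 ≤ 112 * C * 32 ^ κ' := by positivity
                                                linarith) (by positivity)
    have h2 := mul_le_mul_of_nonneg_right h1 hX0.le
    linarith
  · have hK3 : 1 ≤ K / 32 := by linarith
    have hev := h (K / 32) hK3
    have hall : ∀ᶠ X : ℝ in atTop, ∀ i ∈ Finset.range 7,
        volume {t : ℝ | t ∈ Icc (11 * (8 / 11 * X * (13 / 11) ^ i) / 8) (13 * (8 / 11 * X * (13 / 11) ^ i) / 8) ∧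
          ∀ ρ : ZS, t ≤ (ρ : ℂ).im → (ρ : ℂ).im ≤ t + K / 32 / Real.log (8 / 11 * X * (13 / 11) ^ i) →
            ¬ SM.CloseC (6799 / 10000) (8 / 11 * X * (13 / 11) ^ i) ρ} ≤
          ENNReal.ofReal (C * (K / 32) ^ (-κ) * (8 / 11 * X * (13 / 11) ^ i)) := by
      rw [Filter.eventually_all_finset]
      intro i _
      have ht : Tendsto (fun X : ℝ => 8 / 11 * X * (13 / 11) ^ i) atTop atTop :=
        (tendsto_id.const_mul_atTop (by norm_num : (0 : ℝ) < 8 / 11)).atTop_mul_const (by positivity)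
      exact ht.eventually hev
    filter_upwards [hall, eventually_gt_atTop 1, Real.tendsto_log_atTop.eventually_ge_atTop 20000] with X hX hX1 hX2
    have hX0 : 0 < X := by linarith
    obtain ⟨V, hV⟩ : ∃ V : ℝ, V = C * (K / 32) ^ (-κ) * (2 * X) := ⟨_, rfl⟩
    have hV0 : 0 ≤ V := by rw [hV]; positivity
    have hc := core19 (K := K) rfl hX1 hX2 hK2 hV0 (fun i hi => by
      refine (hX i hi).trans (ENNReal.ofReal_le_ofReal ?_)
      rw [hV]
      refine mul_le_mul_of_nonneg_left ?_ (by positivity)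
      have hi7 : i ≤ 6 := by have := Finset.mem_range.1 hi; omega
      have hpow2 : ((13 : ℝ) / 11) ^ i ≤ (13 / 11) ^ 6 := pow_le_pow_right₀ (by norm_num) hi7
      calc 8 / 11 * X * (13 / 11) ^ i ≤ 8 / 11 * X * (13 / 11) ^ 6 := mul_le_mul_of_nonneg_left hpow2 (by positivity)
        _ ≤ 2 * X := by norm_num; linarith)
    refine (measure_mono ?_).trans (hc.trans (ENNReal.ofReal_le_ofReal ?_))
    · rintro x ⟨hx, H, hH1, hH2, hH3⟩
      refine ⟨hx, H, hH1, hH2, hH3.trans_le ?_⟩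
      have hH0 : 0 ≤ H := le_trans (by positivity) hH1
      have : 0 ≤ H * Real.log X := mul_nonneg hH0 (by linarith)
      gcongr
    · have h1 : (K / 32 : ℝ) ^ (-κ) ≤ (K / 32) ^ (-κ') := Real.rpow_le_rpow_of_exponent_le hK3 (by linarith)
      have h2 : (K / 32 : ℝ) ^ (-κ') = 32 ^ κ' * K ^ (-κ') := by
        rw [Real.div_rpow hK0.le (by norm_num), Real.rpow_neg (by norm_num : (0 : ℝ) ≤ 32), div_inv_eq_mul, mul_comm]
      rw [hV]
      calc 56 * (C * (K / 32) ^ (-κ) * (2 * X)) = 112 * C * (K / 32) ^ (-κ) * X := by ring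
        _ ≤ 112 * C * (K / 32) ^ (-κ') * X := by gcongr
        _ = 112 * C * 32 ^ κ' * K ^ (-κ') * X := by rw [h2]; ring
        _ ≤ (112 * C * 32 ^ κ' + 256 ^ κ') * K ^ (-κ') * X := by
            have h3 : 112 * C * 32 ^ κ' ≤ 112 * C * 32 ^ κ' + 256 ^ κ' := by
              have : (0 : ℝ) ≤ 256 ^ κ' := by positivity
              linarith
            gcongr

end Pool.Agent.Helper19.ESR
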